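import Pool.Agent.Lib.MP_0e3b4a_gt.H1.Volt

/-! # EXPA: the flow is polynomial in the control -/

set_option autoImplicit false

namespace Pool.Agent.CutLoci.H1

open MeasureTheory Set Filter Topology
open scoped BoundedContinuousFunction

variable {r : ℕ} {A : Type} [NormedRing A] [NormedAlgebra ℝ A]

/-- The first order terms. -/
noncomputable def bt (R : EE r →L[ℝ] A) (u : Ctl r) : ℕ → Ctl r →L[ℝ] (ℝ →ᵇ A)
  | 0 => 0
  | k + 1 => ((volt R).flip u).comp (bt R u k) + volt R (itb R k u)

/-- The second order terms. -/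
noncomputable def ct (R : EE r →L[ℝ] A) (u : Ctl r) : ℕ → ℝ × Ctl r → (ℝ →ᵇ A)
  | 0, _ => 0
  | k + 1, p => volt R (ct R u k p) u + volt R (bt R u k p.2) p.2 + p.1 • volt R (ct R u k p) p.2

theorem itb_expand (R : EE r →L[ℝ] A) (u : Ctl r) (k : ℕ) (δ : ℝ) (x : Ctl r) :
    itb R k (u + δ • x) = itb R k u + δ • bt R u k x + δ ^ 2 • ct R u k (δ, x) := by
  induction k with
  | zero => simp [itb, bt, ct]
  | succ k ih =>
    show volt R (itb R k (u + δ • x)) (u + δ • x) = volt R (itb R k u) u +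
      δ • (volt R (bt R u k x) u + volt R (itb R k u) x) +
      δ ^ 2 • (volt R (ct R u k (δ, x)) u + volt R (bt R u k x) x +
        δ • volt R (ct R u k (δ, x)) x)
    rw [ih]
    simp only [map_add, map_smul, add_apply, smul_apply,
      smul_add, smul_smul]
    module

theorem volt_contDiff (R : EE r →L[ℝ] A) {n : WithTop ℕ∞} {G : Type} [NormedAddCommGroup G]
    [NormedSpace ℝ G] (f : G → (ℝ →ᵇ A)) (v : G → Ctl r) (hf : ContDiff ℝ n f)
    (hv : ContDiff ℝ n v) : ContDiff ℝ n (fun p => volt R (f p) (v p)) :=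
  (volt R).isBoundedBilinearMap.contDiff.comp (hf.prodMk hv)

theorem ct_contDiff (R : EE r →L[ℝ] A) (u : Ctl r) (k : ℕ) {n : WithTop ℕ∞} :
    ContDiff ℝ n (ct R u k) := by
  induction k with
  | zero => exact contDiff_const
  | succ k ih =>
    show ContDiff ℝ n fun p : ℝ × Ctl r => volt R (ct R u k p) u + volt R (bt R u k p.2) p.2 +
      p.1 • volt R (ct R u k p) p.2
    have h2 : ContDiff ℝ n fun p : ℝ × Ctl r => bt R u k p.2 :=
      (bt R u k).contDiff.comp contDiff_snd
    have h4 : ContDiff ℝ n fun p : ℝ × Ctl r => volt R (ct R u k p) u :=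
      volt_contDiff R _ _ ih contDiff_const
    have h5 : ContDiff ℝ n fun p : ℝ × Ctl r => volt R (bt R u k p.2) p.2 :=
      volt_contDiff R _ _ h2 contDiff_snd
    have h6 : ContDiff ℝ n fun p : ℝ × Ctl r => volt R (ct R u k p) p.2 :=
      volt_contDiff R _ _ ih contDiff_snd
    exact (h4.add h5).add (contDiff_fst.smul h6)

theorem sum_itb_apply (R : EE r →L[ℝ] A) (N : ℕ) (v : Ctl r) (t : ℝ) :
    (∑ k ∈ Finset.range N, itb R k v : ℝ →ᵇ A) t = flow R N v (cl t) := by
  unfold flow
  rw [BoundedContinuousFunction.coe_sum, Finset.sum_apply]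
  exact Finset.sum_congr rfl fun k _ => itb_apply R k v t

theorem itb_nil (hF : FlowStatement) [CompleteSpace A] (R : EE r →L[ℝ] A) (N : ℕ) (hN : Nil R N)
    (v : Ctl r) : itb R N v = 0 := by
  ext t
  have h1 := (hF r A R N hN v (ctl_int v)).2 (cl t) (cl_mem t)
  have h2 : ∫ s in (0 : ℝ)..cl t, flow R N v s * R (v s) =
      volt R (∑ k ∈ Finset.range N, itb R k v) v t := by
    rw [volt_apply]
    refine intervalIntegral.integral_congr_ae (ae_of_all _ fun s hs => ?_)
    rw [uIoc_of_le (cl_mem t).1] at hs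
    have : s ∈ Icc (0 : ℝ) 1 := ⟨hs.1.le, hs.2.trans (cl_mem t).2⟩
    rw [sum_itb_apply, cl_of_mem this]
  have h3 : volt R (∑ k ∈ Finset.range N, itb R k v) v =
      ∑ k ∈ Finset.range N, itb R (k + 1) v := by
    rw [map_sum, sum_apply]
    rfl
  have h4 : (1 : A) + (∑ k ∈ Finset.range N, itb R (k + 1) v : ℝ →ᵇ A) t =
      (∑ k ∈ Finset.range N, itb R k v : ℝ →ᵇ A) t + itb R N v t := by
    have h5 : ∑ k ∈ Finset.range N, itb R (k + 1) v + itb R 0 v =
        ∑ k ∈ Finset.range N, itb R k v + itb R N v := by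
      rw [← Finset.sum_range_succ' (fun k => itb R k v), Finset.sum_range_succ]
    have h6 := congrArg (fun F : ℝ →ᵇ A => F t) h5
    simp only [BoundedContinuousFunction.coe_add, Pi.add_apply] at h6
    rw [← h6, add_comm]
    rfl
  rw [h2, h3, h4, sum_itb_apply] at h1
  have h7 : flow R N (v : ℝ → EE r) (cl t) + 0 = flow R N v (cl t) + itb R N v t := by
    rw [add_zero]
    exact h1
  exact (add_left_cancel h7).symm

theorem bt_ct_nil (R : EE r →L[ℝ] A) (N : ℕ) (h0 : ∀ v : Ctl r, itb R N v = 0) (u x : Ctl r) :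
    bt R u N x = 0 ∧ ∀ δ : ℝ, ct R u N (δ, x) = 0 := by
  have h1 : ∀ δ : ℝ, δ ≠ 0 → bt R u N x = -(δ • ct R u N (δ, x)) := by
    intro δ hδ
    have h2 := itb_expand R u N δ x
    rw [h0, h0, zero_add] at h2
    have h3 : δ • (bt R u N x + δ • ct R u N (δ, x)) = 0 := by
      rw [h2]
      module
    have h4 := (smul_eq_zero.1 h3).resolve_left hδ
    exact eq_neg_of_add_eq_zero_left h4
  have hc : Continuous fun δ : ℝ => ct R u N (δ, x) :=
    (ct_contDiff R u N (n := 0)).continuous.comp (by fun_prop)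
  have hne : (𝓝[≠] (0 : ℝ)).NeBot := inferInstance
  have h5 : bt R u N x = 0 := by
    have h6 : Tendsto (fun δ : ℝ => -(δ • ct R u N (δ, x))) (𝓝[≠] 0) (𝓝 0) := by
      have h7 : Continuous fun δ : ℝ => -(δ • ct R u N (δ, x)) := by fun_prop
      have h8 := h7.tendsto 0
      simp only [zero_smul, neg_zero] at h8
      exact h8.mono_left nhdsWithin_le_nhds
    have h9 : Tendsto (fun _ : ℝ => bt R u N x) (𝓝[≠] 0) (𝓝 0) :=
      h6.congr' (by
        filter_upwards [self_mem_nhdsWithin] with δ hδ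
        exact (h1 δ hδ).symm)
    exact tendsto_nhds_unique tendsto_const_nhds h9
  refine ⟨h5, ?_⟩
  have h10 : ∀ δ : ℝ, δ ≠ 0 → ct R u N (δ, x) = 0 := by
    intro δ hδ
    have h11 := h1 δ hδ
    rw [h5] at h11
    have h12 : δ • ct R u N (δ, x) = 0 := by
      rw [← neg_eq_zero]
      exact h11.symm
    exact (smul_eq_zero.1 h12).resolve_left hδ
  intro δ
  by_cases hδ : δ = 0
  · subst hδ
    have h13 : Tendsto (fun δ : ℝ => ct R u N (δ, x)) (𝓝[≠] 0) (𝓝 (ct R u N (0, x))) :=
      (hc.tendsto 0).mono_left nhdsWithin_le_nhds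
    have h14 : Tendsto (fun δ : ℝ => ct R u N (δ, x)) (𝓝[≠] 0) (𝓝 0) := by
      refine (tendsto_const_nhds (x := (0 : ℝ →ᵇ A))).congr' ?_
      filter_upwards [self_mem_nhdsWithin] with δ hδ
      exact (h10 δ hδ).symm
    exact tendsto_nhds_unique h13 h14
  · exact h10 δ hδ

theorem volt_int (R : EE r →L[ℝ] A) (Y Z : ℝ →ᵇ A) (v w : Ctl r) {t : ℝ}
    (ht : t ∈ Icc (0 : ℝ) 1) :
    volt R Y v t + volt R Z w t = ∫ s in (0 : ℝ)..t, (Y s * R (v s) + Z s * R (w s)) := by
  rw [volt_apply, volt_apply, cl_of_mem ht]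
  have h1 := ii R Y v t
  have h2 := ii R Z w t
  rw [cl_of_mem ht] at h1 h2
  exact (intervalIntegral.integral_add h1 h2).symm

theorem expa (hF : FlowStatement) : ExpaStatement := by
  intro r A _ _ _ R N hN
  have hnil := itb_nil hF R N hN
  refine ⟨fun v => ∑ k ∈ Finset.range N, itb R k v, ?_, fun u t => sum_itb_apply R N u t, ?_⟩
  · exact ContDiff.sum fun k _ => itb_contDiff R k
  intro u
  refine ⟨∑ k ∈ Finset.range N, bt R u k, fun p => ∑ k ∈ Finset.range N, ct R u k p, ?_, ?_, ?_,
    ?_⟩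
  · exact ContDiff.sum fun k _ => ct_contDiff R u k
  · intro δ x
    simp only [itb_expand, sum_apply, Finset.sum_add_distrib,
      Finset.smul_sum]
  · intro x t ht
    have h1 : (∑ k ∈ Finset.range N, bt R u k) x =
        volt R ((∑ k ∈ Finset.range N, bt R u k) x) u +
          volt R (∑ k ∈ Finset.range N, itb R k u) x := by
      have h2 : ∑ k ∈ Finset.range N, bt R u (k + 1) x + bt R u 0 x =
          ∑ k ∈ Finset.range N, bt R u k x + bt R u N x := by
        rw [← Finset.sum_range_succ' (fun k => bt R u k x), Finset.sum_range_succ]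
      rw [(bt_ct_nil R N hnil u x).1, add_zero] at h2
      have h2' : ∑ k ∈ Finset.range N, bt R u (k + 1) x = ∑ k ∈ Finset.range N, bt R u k x := by
        rw [← h2]
        exact (add_zero _).symm
      have h3 : ∀ k, bt R u (k + 1) x = volt R (bt R u k x) u + volt R (itb R k u) x :=
        fun k => rfl
      rw [Finset.sum_congr rfl fun k _ => h3 k, Finset.sum_add_distrib] at h2'
      rw [sum_apply, map_sum (volt R), map_sum (volt R), sum_apply, sum_apply]
      exact h2'.symm
    have h5 := congrArg (fun F : ℝ →ᵇ A => F t) h1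
    simp only [BoundedContinuousFunction.coe_add, Pi.add_apply] at h5
    rw [volt_int R _ _ u x ht] at h5
    rw [h5]
    refine intervalIntegral.integral_congr_ae (ae_of_all _ fun s hs => ?_)
    rw [uIoc_of_le ht.1] at hs
    have hs' : s ∈ Icc (0 : ℝ) 1 := ⟨hs.1.le, hs.2.trans ht.2⟩
    rw [sum_itb_apply, cl_of_mem hs']
  · intro x t ht
    have h1 : ∑ k ∈ Finset.range N, ct R u k (0, x) =
        volt R (∑ k ∈ Finset.range N, ct R u k (0, x)) u +
          volt R ((∑ k ∈ Finset.range N, bt R u k) x) x := by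
      have h2 : ∑ k ∈ Finset.range N, ct R u (k + 1) (0, x) + ct R u 0 (0, x) =
          ∑ k ∈ Finset.range N, ct R u k (0, x) + ct R u N (0, x) := by
        rw [← Finset.sum_range_succ' (fun k => ct R u k (0, x)), Finset.sum_range_succ]
      rw [(bt_ct_nil R N hnil u x).2, add_zero] at h2
      have h2' : ∑ k ∈ Finset.range N, ct R u (k + 1) (0, x) =
          ∑ k ∈ Finset.range N, ct R u k (0, x) := by
        rw [← h2]
        exact (add_zero _).symm
      have h3 : ∀ k, ct R u (k + 1) (0, x) = volt R (ct R u k (0, x)) u +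
          volt R (bt R u k x) x := by
        intro k
        show volt R (ct R u k (0, x)) u + volt R (bt R u k x) x +
          (0 : ℝ) • volt R (ct R u k (0, x)) x = _
        rw [zero_smul, add_zero]
      rw [Finset.sum_congr rfl fun k _ => h3 k, Finset.sum_add_distrib] at h2'
      rw [sum_apply, map_sum (volt R), map_sum (volt R), sum_apply, sum_apply]
      exact h2'.symm
    have h5 := congrArg (fun F : ℝ →ᵇ A => F t) h1
    simp only [BoundedContinuousFunction.coe_add, Pi.add_apply] at h5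
    rw [volt_int R _ _ u x ht] at h5
    exact h5

end Pool.Agent.CutLoci.H1
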