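import Pool.Agent.Lib.MP_0e3b4a_gt.Iface

/-! # MINI: existence of minimisers and lower semicontinuity -/

set_option autoImplicit false
set_option linter.unusedSectionVars false

namespace Pool.Agent.CutLoci.H1

open MeasureTheory Set Filter Topology

variable {r : ℕ}

/-- Bounded sequences of controls have weakly convergent subsequences. -/
theorem weak_compact (un : ℕ → Ctl r) (M : ℝ) (hM : ∀ n, ‖un n‖ ≤ M) :
    ∃ (u : Ctl r) (φ : ℕ → ℕ), StrictMono φ ∧
      ∀ x : Ctl r, Tendsto (fun n => inner ℝ (un (φ n)) x) atTop (𝓝 (inner ℝ u x)) := by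
  have : Fact ((2 : ENNReal) ≠ ⊤) := ⟨by norm_num⟩
  have : SecondCountableTopology (Ctl r) := inferInstance
  have : TopologicalSpace.SeparableSpace (Ctl r) := inferInstance
  have h1 := WeakDual.isSeqCompact_closedBall ℝ (Ctl r) 0 M
  obtain ⟨l, _, φ, hφ, hl⟩ := h1 (x := fun n => WeakDual.toStrongDual.symm
    (InnerProductSpace.toDual ℝ (Ctl r) (un n))) (fun n => by
      simp only [mem_preimage, LinearEquiv.apply_symm_apply, mem_closedBall_zero_iff,
        LinearIsometryEquiv.norm_map]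
      exact hM n)
  refine ⟨(InnerProductSpace.toDual ℝ (Ctl r)).symm (WeakDual.toStrongDual l), φ, hφ,
    fun x => ?_⟩
  rw [InnerProductSpace.toDual_symm_apply]
  have h2 := ((WeakDual.eval_continuous (𝕜 := ℝ) x).tendsto l).comp hl
  exact h2

theorem weak_norm (un : ℕ → Ctl r) (u : Ctl r) (m : ℝ)
    (h : ∀ x : Ctl r, Tendsto (fun n => inner ℝ (un n) x) atTop (𝓝 (inner ℝ u x)))
    (hm : Tendsto (fun n => ‖un n‖) atTop (𝓝 m)) : ‖u‖ ≤ m := by
  have h1 := h u
  have h2 : Tendsto (fun n => ‖un n‖ * ‖u‖) atTop (𝓝 (m * ‖u‖)) := hm.mul_const _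
  have h3 : inner ℝ u u ≤ m * ‖u‖ :=
    le_of_tendsto_of_tendsto' h1 h2 fun n => real_inner_le_norm _ _
  rw [real_inner_self_eq_norm_mul_norm] at h3
  rcases (norm_nonneg u).eq_or_lt with h4 | h4
  · rw [← h4]
    exact ge_of_tendsto' hm fun n => norm_nonneg _
  · exact le_of_mul_le_mul_right h3 h4

theorem weak_norm' (un : ℕ → Ctl r) (u : Ctl r) (m : ℝ)
    (h : ∀ x : Ctl r, Tendsto (fun n => inner ℝ (un n) x) atTop (𝓝 (inner ℝ u x)))
    (hm : ∀ n, ‖un n‖ ≤ m) : ‖u‖ ≤ m := by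
  have h1 := h u
  have h3 : inner ℝ u u ≤ m * ‖u‖ :=
    le_of_tendsto' h1 fun n => (real_inner_le_norm _ _).trans
      (mul_le_mul_of_nonneg_right (hm n) (norm_nonneg _))
  rw [real_inner_self_eq_norm_mul_norm] at h3
  rcases (norm_nonneg u).eq_or_lt with h4 | h4
  · rw [← h4]
    exact (norm_nonneg _).trans (hm 0)
  · exact le_of_mul_le_mul_right h3 h4

variable {g : Type} [NormedAddCommGroup g] [NormedSpace ℝ g] [FiniteDimensional ℝ g]

theorem org_cont : Continuous (fun T : Carnot.Aff g => Carnot.org T) := by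
  unfold Carnot.org
  fun_prop

theorem end_weak (hW : WeakStatement) (C : Carnot g r) (un : ℕ → Ctl r) (u : Ctl r) (M : ℝ)
    (hM : ∀ n, ‖un n‖ ≤ M)
    (h : ∀ x : Ctl r, Tendsto (fun n => inner ℝ (un n) x) atTop (𝓝 (inner ℝ u x))) :
    Tendsto (fun n => C.End (un n)) atTop (𝓝 (C.End u)) := by
  have h1 := hW r (Carnot.Aff g) C.R (C.s + 1) un u M hM h 1 ⟨by norm_num, le_refl _⟩
  exact (org_cont.tendsto _).comp h1

theorem exists_emin (hW : WeakStatement) (hC : ChowStatement g r) (C : Carnot g r) (b : g) :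
    ∃ u : Ctl r, C.EMin u ∧ C.End u = b := by
  have hne : {c : ℝ | ∃ u : Ctl r, C.End u = b ∧ c = ‖u‖}.Nonempty := by
    obtain ⟨u, hu⟩ := hC C b
    exact ⟨‖u‖, u, hu, rfl⟩
  have hbd : BddBelow {c : ℝ | ∃ u : Ctl r, C.End u = b ∧ c = ‖u‖} := by
    refine ⟨0, ?_⟩
    rintro c ⟨u, _, rfl⟩
    exact norm_nonneg _
  obtain ⟨c, _, hc, hcm⟩ := exists_seq_tendsto_sInf hne hbd
  choose un hun hcn using hcm
  have hnorm : Tendsto (fun n => ‖un n‖) atTop
      (𝓝 (sInf {c : ℝ | ∃ u : Ctl r, C.End u = b ∧ c = ‖u‖})) := by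
    refine hc.congr fun n => hcn n
  obtain ⟨M, hM⟩ := hnorm.bddAbove_range
  have hM' : ∀ n, ‖un n‖ ≤ M := fun n => hM ⟨n, rfl⟩
  obtain ⟨u, φ, hφ, hu⟩ := weak_compact un M hM'
  have h1 := end_weak hW C (fun n => un (φ n)) u M (fun n => hM' _) hu
  have h2 : C.End u = b := by
    refine tendsto_nhds_unique h1 ?_
    simp only [hun]
    exact tendsto_const_nhds
  have h3 := weak_norm (fun n => un (φ n)) u _ hu (hnorm.comp hφ.tendsto_atTop)
  refine ⟨u, fun v hv => h3.trans (csInf_le hbd ⟨v, hv.trans h2, rfl⟩), h2⟩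

theorem mini (hW : WeakStatement) (hC : ChowStatement g r) : MiniStatement g r := by
  intro C
  refine ⟨exists_emin hW hC C, ?_⟩
  intro x y hy
  by_contra hcon
  rw [not_eventually] at hcon
  obtain ⟨bn, hbn, hbn2⟩ := exists_seq_forall_of_frequently hcon
  choose un hmin hend using fun n => exists_emin hW hC C (bn n)
  have hf : ∀ n, C.f (bn n) = ‖un n‖ ^ 2 / 2 := by
    intro n
    refine le_antisymm ?_ ?_
    · refine csInf_le ⟨0, ?_⟩ ⟨un n, hend n, rfl⟩
      rintro c ⟨v, _, rfl⟩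
      positivity
    · refine le_csInf ⟨_, un n, hend n, rfl⟩ ?_
      rintro c ⟨v, hv, rfl⟩
      have h1 := hmin n v (hv.trans (hend n).symm)
      have h2 := norm_nonneg (un n)
      nlinarith
  have hle : ∀ n, ‖un n‖ ≤ Real.sqrt (2 * y) := by
    intro n
    refine Real.le_sqrt_of_sq_le ?_
    have h1 := not_lt.1 (hbn2 n)
    rw [hf n] at h1
    linarith
  have hy0 : 0 ≤ 2 * y := by
    have h1 := not_lt.1 (hbn2 0)
    rw [hf 0] at h1
    have h2 : 0 ≤ ‖un 0‖ ^ 2 / 2 := by positivity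
    linarith
  obtain ⟨u, φ, hφ, hu⟩ := weak_compact un _ hle
  have h1 := end_weak hW C (fun n => un (φ n)) u _ (fun n => hle _) hu
  have h2 : C.End u = x := by
    refine tendsto_nhds_unique h1 ?_
    simp only [hend]
    exact hbn.comp hφ.tendsto_atTop
  have h3 := weak_norm' (fun n => un (φ n)) u _ hu (fun n => hle _)
  have h4 : C.f x ≤ ‖u‖ ^ 2 / 2 := by
    refine csInf_le ⟨0, ?_⟩ ⟨u, h2, rfl⟩
    rintro c ⟨v, _, rfl⟩
    positivity
  have h5 : ‖u‖ ^ 2 ≤ 2 * y := by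
    calc ‖u‖ ^ 2 ≤ (Real.sqrt (2 * y)) ^ 2 := pow_le_pow_left₀ (norm_nonneg _) h3 2
      _ = 2 * y := Real.sq_sqrt hy0
  linarith

end Pool.Agent.CutLoci.H1
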