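import Pool.Agent.Lib.MP_0e3b4a_gt.H1.Volt

/-! # WEAK: weak continuity of the flow -/

set_option autoImplicit false

namespace Pool.Agent.CutLoci.H1

open MeasureTheory Set Filter Topology
open scoped BoundedContinuousFunction

variable {r : ℕ}

/-- Weak convergence is preserved by continuous linear maps into finite-dimensional spaces. -/
theorem weak_fin {A : Type} [NormedAddCommGroup A] [NormedSpace ℝ A] [FiniteDimensional ℝ A]
    (T : Ctl r →L[ℝ] A) (un : ℕ → Ctl r) (u : Ctl r)
    (h : ∀ x : Ctl r, Tendsto (fun n => inner ℝ (un n) x) atTop (𝓝 (inner ℝ u x))) :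
    Tendsto (fun n => T (un n)) atTop (𝓝 (T u)) := by
  have e := (Module.finBasis ℝ A).equivFunL
  have h1 : Tendsto (fun n => e (T (un n))) atTop (𝓝 (e (T u))) := by
    rw [tendsto_pi_nhds]
    intro i
    have h2 := h ((InnerProductSpace.toDual ℝ (Ctl r)).symm
      ((ContinuousLinearMap.proj i : (Fin _ → ℝ) →L[ℝ] ℝ).comp
        ((e : A →L[ℝ] (Fin _ → ℝ)).comp T)))
    have h3 : ∀ w : Ctl r, inner ℝ w ((InnerProductSpace.toDual ℝ (Ctl r)).symm
      ((ContinuousLinearMap.proj i : (Fin _ → ℝ) →L[ℝ] ℝ).comp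
        ((e : A →L[ℝ] (Fin _ → ℝ)).comp T))) = e (T w) i := by
      intro w
      rw [real_inner_comm, InnerProductSpace.toDual_symm_apply]
      rfl
    simp only [h3] at h2
    exact h2
  have h4 := (e.symm.continuous.tendsto _).comp h1
  simpa [Function.comp_def] using h4

/-- Products of a bounded sequence converging to zero pointwise and a sequence bounded in `L²`. -/
theorem dom_zero (un : ℕ → Ctl r) (M : ℝ) (hM : ∀ n, ‖un n‖ ≤ M) (h : ℕ → ℝ → ℝ) (c : ℝ)
    (hc : ∀ n, ∀ s ∈ Icc (0 : ℝ) 1, 0 ≤ h n s ∧ h n s ≤ c)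
    (hm : ∀ n, ContinuousOn (h n) (Icc 0 1))
    (h0 : ∀ s ∈ Icc (0 : ℝ) 1, Tendsto (fun n => h n s) atTop (𝓝 0)) :
    Tendsto (fun n => ∫ s in Ioc (0 : ℝ) 1, h n s * ‖un n s‖) atTop (𝓝 0) := by
  have hM0 : 0 ≤ M := (norm_nonneg _).trans (hM 0)
  have hc0 : 0 ≤ c := (hc 0 0 ⟨le_refl _, by norm_num⟩).1.trans (hc 0 0 ⟨le_refl _, by norm_num⟩).2
  have hmem : ∀ᵐ s ∂((volume : Measure ℝ).restrict (Ioc 0 1)), s ∈ Icc (0 : ℝ) 1 := by
    filter_upwards [ae_restrict_mem measurableSet_Ioc] with s hs using Ioc_subset_Icc_self hs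
  have hms : ∀ n, AEStronglyMeasurable (h n) ((volume : Measure ℝ).restrict (Ioc 0 1)) :=
    fun n => ((hm n).mono Ioc_subset_Icc_self).aestronglyMeasurable measurableSet_Ioc
  have h1 : Tendsto (fun n => ∫ s in Ioc (0 : ℝ) 1, h n s ^ (2 : ℝ)) atTop (𝓝 0) := by
    have h2 := tendsto_integral_of_dominated_convergence
      (μ := (volume : Measure ℝ).restrict (Ioc 0 1)) (F := fun n s => h n s ^ (2 : ℝ))
      (f := fun _ => 0) (fun _ => c ^ (2 : ℝ)) (fun n => ?_) (integrable_const _) (fun n => ?_) ?_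
    · simpa using h2
    · have := (hms n).pow 2
      refine this.congr (ae_of_all _ fun s => ?_)
      simp
    · filter_upwards [hmem] with s hs
      obtain ⟨a1, a2⟩ := hc n s hs
      rw [Real.norm_of_nonneg (by positivity)]
      exact Real.rpow_le_rpow a1 a2 (by norm_num)
    · filter_upwards [hmem] with s hs
      have := (h0 s hs).pow 2
      simpa using this
  have h3 : ∀ n, ∫ s in Ioc (0 : ℝ) 1, h n s * ‖un n s‖ ≤
      (∫ s in Ioc (0 : ℝ) 1, h n s ^ (2 : ℝ)) ^ (1 / (2 : ℝ)) * M := by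
    intro n
    have h4 := integral_mul_le_Lp_mul_Lq_of_nonneg
      (μ := (volume : Measure ℝ).restrict (Ioc 0 1)) (p := 2) (q := 2)
      (by constructor <;> norm_num) (f := h n) (g := fun s => ‖un n s‖)
      (by filter_upwards [hmem] with s hs using (hc n s hs).1)
      (ae_of_all _ fun s => norm_nonneg _)
      (MemLp.of_bound (hms n) c (by
        filter_upwards [hmem] with s hs
        rw [Real.norm_of_nonneg (hc n s hs).1]
        exact (hc n s hs).2))
      (by
        have := (Lp.memLp (un n)).norm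
        simpa using this)
    refine h4.trans ?_
    have h10 : 0 ≤ ∫ s in Ioc (0 : ℝ) 1, h n s ^ (2 : ℝ) := by
      refine integral_nonneg_of_ae ?_
      filter_upwards [hmem] with s hs
      exact Real.rpow_nonneg (hc n s hs).1 _
    refine mul_le_mul_of_nonneg_left ?_ (Real.rpow_nonneg h10 _)
    have h5 : ∫ s in Ioc (0 : ℝ) 1, ‖un n s‖ ^ (2 : ℝ) = ‖un n‖ ^ 2 := by
      rw [← ctl_sq (un n)]
      simp
    rw [h5]
    have h6 : (‖un n‖ ^ 2) ^ (1 / (2 : ℝ)) = ‖un n‖ := by
      rw [← Real.sqrt_eq_rpow, Real.sqrt_sq (norm_nonneg _)]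
    rw [h6]
    exact hM n
  have h7 : Tendsto (fun n => (∫ s in Ioc (0 : ℝ) 1, h n s ^ (2 : ℝ)) ^ (1 / (2 : ℝ)) * M) atTop
      (𝓝 0) := by
    have h8 : Tendsto (fun n => (∫ s in Ioc (0 : ℝ) 1, h n s ^ (2 : ℝ)) ^ (1 / (2 : ℝ))) atTop
        (𝓝 (0 ^ (1 / (2 : ℝ)))) := h1.rpow_const (Or.inr (by norm_num))
    have h9 := h8.mul_const M
    rwa [Real.zero_rpow (by norm_num), zero_mul] at h9
  refine tendsto_of_tendsto_of_tendsto_of_le_of_le tendsto_const_nhds h7 (fun n => ?_) h3
  refine integral_nonneg_of_ae ?_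
  filter_upwards [hmem] with s hs
  exact mul_nonneg (hc n s hs).1 (norm_nonneg _)

theorem iter_weak {A : Type} [NormedRing A] [NormedAlgebra ℝ A] [FiniteDimensional ℝ A]
    (R : EE r →L[ℝ] A) (un : ℕ → Ctl r) (u : Ctl r) (M : ℝ) (hM : ∀ n, ‖un n‖ ≤ M)
    (h : ∀ x : Ctl r, Tendsto (fun n => inner ℝ (un n) x) atTop (𝓝 (inner ℝ u x))) (k : ℕ) :
    ∀ t : ℝ, Tendsto (fun n => itb R k (un n) t) atTop (𝓝 (itb R k u t)) := by
  induction k with
  | zero => intro t; exact tendsto_const_nhds
  | succ k ih =>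
    intro t
    -- the linear part
    have h1 : Tendsto (fun n => volt R (itb R k u) (un n) t) atTop
        (𝓝 (volt R (itb R k u) u t)) :=
      weak_fin ((BoundedContinuousFunction.evalCLM ℝ t).comp (volt R (itb R k u))) un u h
    have h2 : Tendsto (fun n => volt R (itb R k (un n) - itb R k u) (un n) t) atTop (𝓝 0) := by
      have hM0 : 0 ≤ M := (norm_nonneg _).trans (hM 0)
      have h3 := dom_zero un M hM (fun n s => ‖R‖ * ‖(itb R k (un n) - itb R k u) s‖)
        (‖R‖ * ((‖R‖ * M) ^ k * ‖(1 : A)‖ + ‖itb R k u‖)) (fun n s _ => ⟨by positivity, ?_⟩)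
        (fun n => (by fun_prop : Continuous fun s => ‖R‖ *
          ‖(itb R k (un n) - itb R k u) s‖).continuousOn) (fun s _ => ?_)
      · refine squeeze_zero_norm (fun n => ?_) h3
        rw [volt_apply]
        refine (prim_norm (int_mul R (itb R k (un n) - itb R k u).continuous.continuousOn
          (ctl_int (un n))) (cl_mem t)).trans ?_
        refine setIntegral_mono_on (int_mul R
          (itb R k (un n) - itb R k u).continuous.continuousOn (ctl_int (un n))).norm ?_
          measurableSet_Ioc fun s _ => ?_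
        · refine Integrable.bdd_mul
            (c := ‖R‖ * ‖itb R k (un n) - itb R k u‖) (ctl_int (un n)).norm
            (by fun_prop : Continuous fun s => ‖R‖ *
              ‖(itb R k (un n) - itb R k u) s‖).aestronglyMeasurable (ae_of_all _ fun s => ?_)
          rw [Real.norm_of_nonneg (by positivity)]
          gcongr
          exact BoundedContinuousFunction.norm_coe_le_norm _ s
        · calc ‖(itb R k (un n) - itb R k u) s * R (un n s)‖
              ≤ ‖(itb R k (un n) - itb R k u) s‖ * ‖R (un n s)‖ := norm_mul_le _ _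
            _ ≤ ‖(itb R k (un n) - itb R k u) s‖ * (‖R‖ * ‖un n s‖) := by
              gcongr
              exact R.le_opNorm _
            _ = ‖R‖ * ‖(itb R k (un n) - itb R k u) s‖ * ‖un n s‖ := by ring
      · gcongr
        calc ‖(itb R k (un n) - itb R k u) s‖ ≤ ‖itb R k (un n) - itb R k u‖ :=
              BoundedContinuousFunction.norm_coe_le_norm _ s
          _ ≤ ‖itb R k (un n)‖ + ‖itb R k u‖ := norm_sub_le _ _
          _ ≤ (‖R‖ * M) ^ k * ‖(1 : A)‖ + ‖itb R k u‖ := by
            gcongr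
            exact itb_norm R k (un n) (hM n)
      · have h4 : Tendsto (fun n => itb R k (un n) s - itb R k u s) atTop (𝓝 0) := by
          have := (ih s).sub (tendsto_const_nhds (x := itb R k u s))
          simpa using this
        have h5 := h4.norm.const_mul ‖R‖
        simpa using h5
    have h3 := h1.add h2
    rw [add_zero] at h3
    refine h3.congr fun n => ?_
    show _ = volt R (itb R k (un n)) (un n) t
    rw [map_sub]
    simp

theorem weak : WeakStatement := by
  intro r A _ _ _ R N un u M hM h t ht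
  unfold flow
  refine tendsto_finsetSum _ fun k _ => ?_
  have h1 := iter_weak R un u M hM h k t
  simp only [itb_eq R k _ ht] at h1
  exact h1

end Pool.Agent.CutLoci.H1
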