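import Pool.Agent.Lib.MP_0e3b4a_gt.Iface

/-! # The Volterra operator on bounded continuous curves -/

set_option autoImplicit false

namespace Pool.Agent.CutLoci.H1

open MeasureTheory Set Filter Topology
open scoped BoundedContinuousFunction

variable {r : ℕ}

/-- The clamp to `[0, 1]`. -/
noncomputable def cl (t : ℝ) : ℝ := max 0 (min t 1)

theorem cl_cont : Continuous cl := by unfold cl; fun_prop

theorem cl_mem (t : ℝ) : cl t ∈ Icc (0 : ℝ) 1 := by
  unfold cl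
  constructor
  · exact le_max_left _ _
  · exact max_le (by norm_num) (min_le_right _ _)

theorem cl_of_mem {t : ℝ} (ht : t ∈ Icc (0 : ℝ) 1) : cl t = t := by
  unfold cl
  rw [min_eq_left ht.2, max_eq_right ht.1]

instance instProb : IsProbabilityMeasure ((volume : Measure ℝ).restrict (Ioc (0 : ℝ) 1)) :=
  ⟨by simp⟩

theorem ctl_int (v : Ctl r) : IntegrableOn (v : ℝ → EE r) (Ioc 0 1) :=
  (Lp.memLp v).integrable (by norm_num)

theorem ctl_sq (v : Ctl r) : ∫ s in Ioc (0 : ℝ) 1, ‖v s‖ ^ 2 = ‖v‖ ^ 2 := by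
  rw [← real_inner_self_eq_norm_sq v, L2.inner_def]
  refine integral_congr_ae (ae_of_all _ fun s => ?_)
  simp only
  rw [real_inner_self_eq_norm_sq]

theorem ctl_norm (v : Ctl r) : ∫ s in Ioc (0 : ℝ) 1, ‖v s‖ ≤ ‖v‖ := by
  have h1 : eLpNorm v 1 ((volume : Measure ℝ).restrict (Ioc (0 : ℝ) 1)) ≤
      eLpNorm v 2 ((volume : Measure ℝ).restrict (Ioc (0 : ℝ) 1)) :=
    eLpNorm_le_eLpNorm_of_exponent_le (by norm_num) (Lp.aestronglyMeasurable v)
  rw [integral_norm_eq_lintegral_enorm (Lp.aestronglyMeasurable v), Lp.norm_def]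
  refine ENNReal.toReal_mono (Lp.eLpNorm_ne_top v) ?_
  rwa [eLpNorm_one_eq_lintegral_enorm] at h1

section

variable {A : Type} [NormedRing A] [NormedAlgebra ℝ A]

theorem meas_mul (R : EE r →L[ℝ] A) {Y : ℝ → A} (hY : ContinuousOn Y (Icc 0 1)) {v : ℝ → EE r}
    (hv : IntegrableOn v (Ioc 0 1)) :
    AEStronglyMeasurable (fun s => Y s * R (v s)) ((volume : Measure ℝ).restrict (Ioc 0 1)) := by
  have h1 : AEStronglyMeasurable Y ((volume : Measure ℝ).restrict (Ioc 0 1)) :=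
    (hY.mono Ioc_subset_Icc_self).aestronglyMeasurable measurableSet_Ioc
  exact h1.mul (R.continuous.comp_aestronglyMeasurable hv.1)

theorem int_mul (R : EE r →L[ℝ] A) {Y : ℝ → A} (hY : ContinuousOn Y (Icc 0 1)) {v : ℝ → EE r}
    (hv : IntegrableOn v (Ioc 0 1)) :
    IntegrableOn (fun s => Y s * R (v s)) (Ioc 0 1) := by
  obtain ⟨c, hc⟩ := isCompact_Icc.exists_bound_of_continuousOn hY
  have h2 : IntegrableOn (fun s => R (v s)) (Ioc 0 1) := R.integrable_comp hv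
  refine Integrable.bdd_mul (c := c) h2
    ((hY.mono Ioc_subset_Icc_self).aestronglyMeasurable measurableSet_Ioc) ?_
  filter_upwards [ae_restrict_mem measurableSet_Ioc] with s hs
  exact hc s (Ioc_subset_Icc_self hs)

theorem int_mul' (R : EE r →L[ℝ] A) {Y : ℝ → A} (hY : ContinuousOn Y (Icc 0 1)) {v : ℝ → EE r}
    (hv : IntegrableOn v (Ioc 0 1)) {t : ℝ} (ht : t ∈ Icc (0 : ℝ) 1) :
    IntervalIntegrable (fun s => Y s * R (v s)) volume 0 t := by
  rw [intervalIntegrable_iff_integrableOn_Ioc_of_le ht.1]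
  exact (int_mul R hY hv).mono_set (Ioc_subset_Ioc_right ht.2)

/-- Primitives stopped at `1`. -/
theorem prim_cont {E : Type} [NormedAddCommGroup E] [NormedSpace ℝ E] {f : ℝ → E}
    (hf : IntegrableOn f (Ioc 0 1)) : Continuous fun t => ∫ s in (0 : ℝ)..cl t, f s := by
  have h1 : Integrable ((Ioc (0 : ℝ) 1).indicator f) :=
    (integrable_indicator_iff measurableSet_Ioc).2 hf
  have h2 : Continuous fun b => ∫ s in (0 : ℝ)..b, (Ioc (0 : ℝ) 1).indicator f s :=
    intervalIntegral.continuous_primitive (fun a b => h1.intervalIntegrable) 0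
  have h3 : (fun t => ∫ s in (0 : ℝ)..cl t, f s) =
      fun t => ∫ s in (0 : ℝ)..cl t, (Ioc (0 : ℝ) 1).indicator f s := by
    funext t
    refine intervalIntegral.integral_congr_ae (ae_of_all _ fun s hs => ?_)
    rw [uIoc_of_le (cl_mem t).1] at hs
    rw [indicator_of_mem (show s ∈ Ioc (0 : ℝ) 1 from ⟨hs.1, hs.2.trans (cl_mem t).2⟩)]
  rw [h3]
  exact h2.comp cl_cont

theorem prim_norm {E : Type} [NormedAddCommGroup E] [NormedSpace ℝ E] {f : ℝ → E}
    (hf : IntegrableOn f (Ioc 0 1)) {t : ℝ} (ht : t ∈ Icc (0 : ℝ) 1) :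
    ‖∫ s in (0 : ℝ)..t, f s‖ ≤ ∫ s in Ioc (0 : ℝ) 1, ‖f s‖ := by
  refine (intervalIntegral.norm_integral_le_integral_norm ht.1).trans ?_
  rw [intervalIntegral.integral_of_le ht.1]
  exact setIntegral_mono_set hf.norm (ae_of_all _ fun s => norm_nonneg _)
    (Ioc_subset_Ioc_right ht.2).eventuallyLE

theorem mul_norm_int (R : EE r →L[ℝ] A) {Y : ℝ → A} (hY : ContinuousOn Y (Icc 0 1)) {c : ℝ}
    (hc : ∀ s ∈ Icc (0 : ℝ) 1, ‖Y s‖ ≤ c) (v : Ctl r) :
    ∫ s in Ioc (0 : ℝ) 1, ‖Y s * R (v s)‖ ≤ ‖R‖ * c * ‖v‖ := by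
  have hc0 : 0 ≤ c := (norm_nonneg _).trans (hc 0 ⟨le_refl _, by norm_num⟩)
  calc ∫ s in Ioc (0 : ℝ) 1, ‖Y s * R (v s)‖
      ≤ ∫ s in Ioc (0 : ℝ) 1, (‖R‖ * c) * ‖v s‖ := by
        refine setIntegral_mono_on (int_mul R hY (ctl_int v)).norm
          ((ctl_int v).norm.const_mul _) measurableSet_Ioc fun s hs => ?_
        calc ‖Y s * R (v s)‖ ≤ ‖Y s‖ * ‖R (v s)‖ := norm_mul_le _ _
          _ ≤ c * (‖R‖ * ‖v s‖) :=
            mul_le_mul (hc s (Ioc_subset_Icc_self hs)) (R.le_opNorm _) (norm_nonneg _) hc0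
          _ = (‖R‖ * c) * ‖v s‖ := by ring
    _ = (‖R‖ * c) * ∫ s in Ioc (0 : ℝ) 1, ‖v s‖ := integral_const_mul _ _
    _ ≤ ‖R‖ * c * ‖v‖ := mul_le_mul_of_nonneg_left (ctl_norm v) (by positivity)

/-- The value of the Volterra operator. -/
noncomputable def voltFun (R : EE r →L[ℝ] A) (Y : ℝ →ᵇ A) (v : Ctl r) : ℝ →ᵇ A :=
  BoundedContinuousFunction.ofNormedAddCommGroup (fun t => ∫ s in (0 : ℝ)..cl t, Y s * R (v s))
    (prim_cont (int_mul R Y.continuous.continuousOn (ctl_int v))) (‖R‖ * ‖Y‖ * ‖v‖) fun t =>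
      (prim_norm (int_mul R Y.continuous.continuousOn (ctl_int v)) (cl_mem t)).trans
        (mul_norm_int R Y.continuous.continuousOn (fun s _ => Y.norm_coe_le_norm s) v)

theorem voltFun_apply (R : EE r →L[ℝ] A) (Y : ℝ →ᵇ A) (v : Ctl r) (t : ℝ) :
    voltFun R Y v t = ∫ s in (0 : ℝ)..cl t, Y s * R (v s) := rfl

theorem voltFun_norm (R : EE r →L[ℝ] A) (Y : ℝ →ᵇ A) (v : Ctl r) :
    ‖voltFun R Y v‖ ≤ ‖R‖ * ‖Y‖ * ‖v‖ :=
  BoundedContinuousFunction.norm_ofNormedAddCommGroup_le _ (by positivity) _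

theorem ii (R : EE r →L[ℝ] A) (Y : ℝ →ᵇ A) (v : Ctl r) (t : ℝ) :
    IntervalIntegrable (fun s => Y s * R (v s)) volume 0 (cl t) :=
  int_mul' R Y.continuous.continuousOn (ctl_int v) (cl_mem t)

theorem ae_ii {p : ℝ → Prop} (h : ∀ᵐ s ∂((volume : Measure ℝ).restrict (Ioc 0 1)), p s)
    {t : ℝ} (ht : t ∈ Icc (0 : ℝ) 1) : ∀ᵐ s ∂(volume : Measure ℝ), s ∈ uIoc 0 t → p s := by
  rw [ae_restrict_iff' measurableSet_Ioc] at h
  filter_upwards [h] with s hs hs2
  rw [uIoc_of_le ht.1] at hs2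
  exact hs ⟨hs2.1, hs2.2.trans ht.2⟩

/-- The Volterra operator `(Y, v) ↦ (t ↦ ∫_0^t Y R(v))`. -/
noncomputable def volt (R : EE r →L[ℝ] A) : (ℝ →ᵇ A) →L[ℝ] Ctl r →L[ℝ] (ℝ →ᵇ A) :=
  LinearMap.mkContinuous₂
    (LinearMap.mk₂ ℝ (voltFun R)
      (by
        intro Y Z v
        ext t
        simp only [voltFun_apply, BoundedContinuousFunction.coe_add, Pi.add_apply, add_mul]
        exact intervalIntegral.integral_add (ii R Y v t) (ii R Z v t))
      (by
        intro c Y v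
        ext t
        simp only [voltFun_apply, BoundedContinuousFunction.coe_smul, smul_mul_assoc]
        exact intervalIntegral.integral_smul _ _)
      (by
        intro Y v w
        ext t
        simp only [voltFun_apply, BoundedContinuousFunction.coe_add, Pi.add_apply]
        rw [← intervalIntegral.integral_add (ii R Y v t) (ii R Y w t)]
        refine intervalIntegral.integral_congr_ae ?_
        refine (ae_ii (Lp.coeFn_add v w) (cl_mem t)).mono fun s hs hs2 => ?_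
        rw [hs hs2]
        simp [mul_add])
      (by
        intro c Y v
        ext t
        simp only [voltFun_apply, BoundedContinuousFunction.coe_smul]
        rw [← intervalIntegral.integral_smul]
        refine intervalIntegral.integral_congr_ae ?_
        refine (ae_ii (Lp.coeFn_smul c v) (cl_mem t)).mono fun s hs hs2 => ?_
        rw [hs hs2]
        simp))
    ‖R‖ (fun Y v => voltFun_norm R Y v)

theorem volt_apply (R : EE r →L[ℝ] A) (Y : ℝ →ᵇ A) (v : Ctl r) (t : ℝ) :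
    volt R Y v t = ∫ s in (0 : ℝ)..cl t, Y s * R (v s) := rfl

theorem volt_norm (R : EE r →L[ℝ] A) (Y : ℝ →ᵇ A) (v : Ctl r) :
    ‖volt R Y v‖ ≤ ‖R‖ * ‖Y‖ * ‖v‖ := voltFun_norm R Y v

/-- Iterated integrals as bounded continuous curves. -/
noncomputable def itb (R : EE r →L[ℝ] A) : ℕ → Ctl r → (ℝ →ᵇ A)
  | 0, _ => BoundedContinuousFunction.const ℝ 1
  | k + 1, v => volt R (itb R k v) v

theorem itb_apply (R : EE r →L[ℝ] A) (k : ℕ) (v : Ctl r) (t : ℝ) :
    itb R k v t = iter R v k (cl t) := by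
  induction k generalizing t with
  | zero => rfl
  | succ k ih =>
    show volt R (itb R k v) v t = ∫ s in (0 : ℝ)..cl t, iter R v k s * R (v s)
    rw [volt_apply]
    refine intervalIntegral.integral_congr_ae (ae_of_all _ fun s hs => ?_)
    rw [uIoc_of_le (cl_mem t).1] at hs
    have : s ∈ Icc (0 : ℝ) 1 := ⟨hs.1.le, hs.2.trans (cl_mem t).2⟩
    rw [ih, cl_of_mem this]

theorem itb_eq (R : EE r →L[ℝ] A) (k : ℕ) (v : Ctl r) {t : ℝ} (ht : t ∈ Icc (0 : ℝ) 1) :
    itb R k v t = iter R v k t := by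
  rw [itb_apply, cl_of_mem ht]

theorem itb_contDiff (R : EE r →L[ℝ] A) (k : ℕ) {n : WithTop ℕ∞} : ContDiff ℝ n (itb R k) := by
  induction k with
  | zero => exact contDiff_const
  | succ k ih =>
    show ContDiff ℝ n fun v => volt R (itb R k v) v
    exact ((volt R).contDiff.comp ih).clm_apply contDiff_id

theorem itb_norm (R : EE r →L[ℝ] A) (k : ℕ) (v : Ctl r) {M : ℝ} (hv : ‖v‖ ≤ M) :
    ‖itb R k v‖ ≤ (‖R‖ * M) ^ k * ‖(1 : A)‖ := by
  induction k with
  | zero =>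
    simp only [pow_zero, one_mul]
    exact (BoundedContinuousFunction.norm_le (norm_nonneg _)).2 fun t => le_refl _
  | succ k ih =>
    have hM : 0 ≤ M := (norm_nonneg _).trans hv
    calc ‖volt R (itb R k v) v‖ ≤ ‖R‖ * ‖itb R k v‖ * ‖v‖ := volt_norm _ _ _
      _ ≤ ‖R‖ * ((‖R‖ * M) ^ k * ‖(1 : A)‖) * M := by gcongr
      _ = (‖R‖ * M) ^ (k + 1) * ‖(1 : A)‖ := by ring

end

end Pool.Agent.CutLoci.H1
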